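import Mathlib
import Pool.Agent.N290.RM.Stm

/-!
# Project RM, part BW: the weight `(1 - |z|²)^(1/512)`
-/

set_option autoImplicit false

open Complex MeasureTheory Set Filter Topology
open scoped ENNReal

namespace Pool.Agent.N2.RM

open Pool.Agent.N290.RJ Pool.Agent.N290.RK Pool.Agent.N290.RL Pool.Agent.N290.RM

variable {d : ℕ}

/-- expansion of the norm of a complex number along a line -/
lemma nsq (a b : ℂ) (t : ℝ) : ‖a + (t : ℂ) * b‖ ^ 2 =
    ‖a‖ ^ 2 + 2 * t * (b * starRingEnd ℂ a).re + t ^ 2 * ‖b‖ ^ 2 := by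
  rw [Complex.sq_norm, Complex.sq_norm, Complex.sq_norm, Complex.normSq_apply,
    Complex.normSq_apply, Complex.normSq_apply]
  simp only [Complex.add_re, Complex.add_im, Complex.mul_re, Complex.mul_im, Complex.ofReal_re,
    Complex.ofReal_im, Complex.conj_re, Complex.conj_im]
  ring

/-- the squared norm along a line -/
lemma N_line (z ξ : E d) (t : ℝ) :
    N (z + t • ξ) = N z + 2 * t * (ip ξ z).re + t ^ 2 * N ξ := by
  have h1 : ∀ a b : ℂ, ‖a + t • b‖ ^ 2 =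
      ‖a‖ ^ 2 + 2 * t * (b * starRingEnd ℂ a).re + t ^ 2 * ‖b‖ ^ 2 := by
    intro a b
    rw [Complex.real_smul]
    exact nsq a b t
  unfold N ip
  simp only [Prod.fst_add, Prod.snd_add, Prod.smul_fst, Prod.smul_snd, Pi.add_apply,
    Pi.smul_apply, h1, Finset.sum_add_distrib, Complex.add_re, Complex.re_sum, ← Finset.mul_sum]
  ring

/-- the squared norm is smooth -/
lemma N_cd : ContDiff ℝ 1 (N : E d → ℝ) := by
  unfold N
  refine ContDiff.add (contDiff_fst.norm_sq ℝ) (ContDiff.sum fun i _ => ?_)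
  exact ContDiff.norm_sq ℝ ((contDiff_pi.1 contDiff_snd) i)

lemma bw_cd : ContDiffOn ℝ 1 (bw : E d → ℝ) (B d) := by
  intro z hz
  have h0 : (1 - N z) ≠ 0 := ne_of_gt (sub_pos.2 hz)
  unfold bw
  exact ((contDiff_const.sub N_cd).contDiffAt.rpow_const_of_ne h0).contDiffWithinAt

lemma bw_pos {z : E d} (hz : z ∈ B d) : 0 < bw z := Real.rpow_pos_of_pos (sub_pos.2 hz) _

lemma bw_le {z : E d} (hz : z ∈ B d) : bw z ≤ 1 := by
  have h0 : (0 : ℝ) ≤ 1 - N z := (sub_pos.2 hz).le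
  have h1 := N_nonneg z
  exact Real.rpow_le_one h0 (by linarith) (by norm_num)

lemma ip_len {z : E d} (hz : z ∈ B d) (ξ : E d) : ‖ip ξ z‖ / (1 - N z) ≤ len z ξ := by
  have h0 : (0 : ℝ) < 1 - N z := sub_pos.2 hz
  have h1 := N_nonneg ξ
  unfold len len2
  refine Real.le_sqrt_of_sq_le ?_
  rw [div_pow]
  have h2 : 0 ≤ N ξ / (1 - N z) := by positivity
  linarith

lemma bw_deriv {z : E d} (hz : z ∈ B d) (ξ : E d) :
    fderiv ℝ (bw : E d → ℝ) z ξ =
      -(2 * (ip ξ z).re) * (1 / 512 : ℝ) * (1 - N z) ^ ((1 / 512 : ℝ) - 1) := by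
  have h0 : (1 - N z) ≠ 0 := ne_of_gt (sub_pos.2 hz)
  have hd : HasFDerivAt (bw : E d → ℝ) (fderiv ℝ (bw : E d → ℝ) z) z := by
    have h1 := (bw_cd z hz).contDiffAt (B_open.mem_nhds hz)
    exact (h1.differentiableAt one_ne_zero).hasFDerivAt
  have hl : HasDerivAt (fun t : ℝ => z + t • ξ) ξ 0 := by
    have h1 := ((hasDerivAt_id (0 : ℝ)).smul_const ξ).const_add z
    simpa using h1
  have e0 : z + (0 : ℝ) • ξ = z := by simp
  have hc : HasDerivAt (fun t : ℝ => bw (z + t • ξ)) (fderiv ℝ (bw : E d → ℝ) z ξ) 0 := by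
    have hd' : HasFDerivAt (bw : E d → ℝ) (fderiv ℝ (bw : E d → ℝ) z) (z + (0 : ℝ) • ξ) := by
      rw [e0]
      exact hd
    exact hd'.comp_hasDerivAt (0 : ℝ) hl
  have hg : HasDerivAt (fun t : ℝ => 1 - N (z + t • ξ)) (-(2 * (ip ξ z).re)) 0 := by
    have h1 : HasDerivAt (fun t : ℝ => 1 - (N z + 2 * t * (ip ξ z).re + t ^ 2 * N ξ))
        (-(2 * (ip ξ z).re)) 0 := by
      have h2 : HasDerivAt (fun t : ℝ => 2 * t * (ip ξ z).re) (2 * 1 * (ip ξ z).re) 0 :=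
        ((hasDerivAt_id (0 : ℝ)).const_mul 2).mul_const _
      have h3 : HasDerivAt (fun t : ℝ => t ^ 2 * N ξ) (((2 : ℕ) : ℝ) * 0 ^ (2 - 1) * N ξ) 0 :=
        (hasDerivAt_pow 2 (0 : ℝ)).mul_const _
      have h4 := ((h2.const_add (N z)).add h3).const_sub 1
      have h5 : -(2 * 1 * (ip ξ z).re + ((2 : ℕ) : ℝ) * 0 ^ (2 - 1) * N ξ) =
          -(2 * (ip ξ z).re) := by norm_num
      rw [h5] at h4
      exact h4
    have e : (fun t : ℝ => 1 - N (z + t • ξ)) =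
        fun t : ℝ => 1 - (N z + 2 * t * (ip ξ z).re + t ^ 2 * N ξ) := by
      funext t
      rw [N_line]
    rw [e]
    exact h1
  have hp : HasDerivAt (fun t : ℝ => bw (z + t • ξ))
      (-(2 * (ip ξ z).re) * (1 / 512 : ℝ) * (1 - N (z + (0 : ℝ) • ξ)) ^ ((1 / 512 : ℝ) - 1)) 0 :=
    hg.rpow_const (Or.inl (by rw [e0]; exact h0))
  rw [e0] at hp
  exact hc.unique hp

lemma bw_a3 {z : E d} (hz : z ∈ B d) (ξ : E d) :
    |fderiv ℝ (bw : E d → ℝ) z ξ| ≤ 1 / 256 * (bw z * len z ξ) := by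
  have h0 : (0 : ℝ) < 1 - N z := sub_pos.2 hz
  have h1 : (1 - N z) ^ ((1 / 512 : ℝ) - 1) = bw z / (1 - N z) := by
    rw [Real.rpow_sub_one h0.ne']
    rfl
  have hb := bw_pos hz
  rw [bw_deriv hz, h1, abs_mul, abs_mul, abs_neg, abs_mul, abs_of_pos (div_pos hb h0)]
  rw [show |(2 : ℝ)| = 2 by norm_num, show |(1 / 512 : ℝ)| = 1 / 512 by norm_num]
  have h2 : |(ip ξ z).re| ≤ ‖ip ξ z‖ := Complex.abs_re_le_norm _
  have h3 := ip_len hz ξ
  calc 2 * |(ip ξ z).re| * (1 / 512) * (bw z / (1 - N z))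
      = 1 / 256 * (bw z * (|(ip ξ z).re| / (1 - N z))) := by ring
    _ ≤ 1 / 256 * (bw z * (‖ip ξ z‖ / (1 - N z))) := by gcongr
    _ ≤ 1 / 256 * (bw z * len z ξ) := by gcongr

theorem bw_aw : AW (bw : E d → ℝ) where
  a1 := bw_cd
  a2 := fun _ hz => ⟨bw_pos hz, bw_le hz⟩
  a3 := fun _ hz ξ => bw_a3 hz ξ

/-- the radial weight -/
noncomputable def om (t : ℝ) : ℝ := (max 0 (min t 1)) ^ (1 / 512 : ℝ)

lemma om_eq {t : ℝ} (h0 : 0 ≤ t) (h1 : t ≤ 1) : om t = t ^ (1 / 512 : ℝ) := by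
  unfold om
  rw [min_eq_left h1, max_eq_right h0]

lemma om_slow : Slow 1 om := by
  refine ⟨?_, ?_, ?_⟩
  · intro s t hst
    unfold om
    refine Real.rpow_le_rpow (le_max_left _ _) ?_ (by norm_num)
    exact max_le_max le_rfl (min_le_min hst le_rfl)
  · intro t
    unfold om
    refine ⟨Real.rpow_nonneg (le_max_left _ _) _, ?_⟩
    exact Real.rpow_le_one (le_max_left _ _) (max_le zero_le_one (min_le_right _ _)) (by norm_num)
  · intro s t h0 hts hs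
    have hs0 : 0 < s := h0.trans_le hts
    rw [om_eq hs0.le hs, om_eq h0.le (hts.trans hs), one_mul]
    have h1 : s ^ (1 / 512 : ℝ) = (s / t) ^ (1 / 512 : ℝ) * t ^ (1 / 512 : ℝ) := by
      rw [← Real.mul_rpow (div_nonneg hs0.le h0.le) h0.le, div_mul_cancel₀ _ h0.ne']
    rw [h1]
    have h2 : 1 ≤ s / t := (one_le_div h0).2 hts
    have h3 : (s / t) ^ (1 / 512 : ℝ) ≤ (s / t) ^ (1 / 8 : ℝ) :=
      Real.rpow_le_rpow_of_exponent_le h2 (by norm_num)
    exact mul_le_mul_of_nonneg_right h3 (Real.rpow_nonneg h0.le _)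

lemma om_int : ∫⁻ t in Ioo (0 : ℝ) 1, ENNReal.ofReal (om t ^ 2 / t) ≠ ⊤ := by
  have h1 : IntervalIntegrable (fun x : ℝ => x ^ (1 / 256 - 1 : ℝ)) volume 0 1 :=
    intervalIntegral.intervalIntegrable_rpow' (by norm_num)
  have h2 : IntegrableOn (fun x : ℝ => x ^ (1 / 256 - 1 : ℝ)) (Ioo 0 1) volume :=
    ((intervalIntegrable_iff_integrableOn_Ioc_of_le zero_le_one).1 h1).mono_set Ioo_subset_Ioc_self
  have h3 : ∫⁻ t in Ioo (0 : ℝ) 1, ENNReal.ofReal (om t ^ 2 / t) =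
      ∫⁻ t in Ioo (0 : ℝ) 1, ENNReal.ofReal (t ^ (1 / 256 - 1 : ℝ)) := by
    refine setLIntegral_congr_fun measurableSet_Ioo ?_
    intro t ht
    have ht0 : 0 < t := ht.1
    simp only
    rw [om_eq ht0.le ht.2.le]
    congr 1
    rw [← Real.rpow_natCast, ← Real.rpow_mul ht0.le, Real.rpow_sub_one ht0.ne']
    norm_num
  rw [h3]
  exact h2.lintegral_lt_top.ne

theorem BW_of (d : ℕ) (hT : TLV d) : BW d := by
  refine ⟨bw_aw, ?_⟩
  obtain ⟨τ, hv, ht⟩ := hT 1 om le_rfl om_slow om_int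
  refine ⟨τ, hv, ?_⟩
  intro κ hκ z hz
  have h1 := ht κ hκ z hz
  have h2 : ∫⁻ w in B d, ENNReal.ofReal ((if 1 - N w ≤ κ then bw w ^ 2 else 0) * ker z w) =
      ∫⁻ w in B d, ENNReal.ofReal ((if 1 - N w ≤ κ then om (1 - N w) ^ 2 else 0) * ker z w) := by
    refine setLIntegral_congr_fun B_meas ?_
    intro w hw
    have h3 : (0 : ℝ) < 1 - N w := sub_pos.2 hw
    have h4 := N_nonneg w
    have h5 : om (1 - N w) = bw w := om_eq h3.le (by linarith)
    simp only [h5]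
  rw [h2]
  exact h1

end Pool.Agent.N2.RM
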